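import Pool.Agent.MP_249f74_an.H9.Re
import Pool.Agent.MP_249f74_an.H72.Top

/-!
From a smooth billiard to a differential field with symmetric algebraic mirrors.
-/

open Set IntermediateField Module

namespace Pool.Agent.MP_249f74_an.H9

open H96 H96.An H17.Anal MvPolynomial Complex

lemma conj_Sp (δ0 δ1 : Derivation ℤ ℝ ℝ) {x y u : ℂ} {s : Set (ℕ × ℕ)}
    (h : u ∈ Sp (Cst δ0 δ1) x y s) :
    (starRingEnd ℂ) u ∈ Sp (Cst δ0 δ1) ((starRingEnd ℂ) x) ((starRingEnd ℂ) y) s := by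
  induction h using Submodule.span_induction with
  | mem _ h =>
    obtain ⟨a, ha, rfl⟩ := h
    simpa using mem_Sp ha
  | zero => simp
  | add _ _ _ _ h1 h2 => rw [map_add]; exact add_mem h1 h2
  | smul c v _ h =>
    have := Submodule.smul_mem _ (⟨(starRingEnd ℂ) c, by rw [cx_conj, c.2.1, map_zero], by
      rw [cx_conj, c.2.2, map_zero]⟩ : Cst δ0 δ1) h
    rwa [Subfield.smul_def, smul_eq_mul, ← map_mul] at this

lemma re_conj (δ0 δ1 : Derivation ℤ ℝ ℝ) {x y : ℂ} (h1 : (starRingEnd ℂ) x = y)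
    (h2 : (starRingEnd ℂ) y = x) : Re (Cst δ0 δ1) ℂ x y := fun s _ m _ =>
  ⟨fun h => by simpa only [map_mul, map_pow, h1, h2] using conj_Sp δ0 δ1 h,
    fun h => by simpa only [map_mul, map_pow, h1, h2] using conj_Sp δ0 δ1 h⟩

lemma rcfg (δ0 δ1 : Derivation ℤ ℝ ℝ) {n : ℕ} (hP : StmtQ Re n) (p0 p1 u0 u1 t : Fin (n + 1) → ℝ)
    (J : Fin (n + 1) → List (Fin 2) → ℝ)
    (c0 : ∀ k l, δ0 (J k l) = J k (0 :: l) * δ0 (p0 k) + J k (1 :: l) * δ0 (p1 k))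
    (c1 : ∀ k l, δ1 (J k l) = J k (0 :: l) * δ1 (p0 k) + J k (1 :: l) * δ1 (p1 k))
    (hJ : ∀ k, J k [] = 0) (hu : ∀ k, u0 k ^ 2 + u1 k ^ 2 = 1)
    (hn : ∀ k, u0 k * J k [0] + u1 k * J k [1] ≠ 0) (ht : ∀ k, 0 < t k)
    (e0 : ∀ k, p0 (k + 1) = p0 k + t k * u0 k) (e1 : ∀ k, p1 (k + 1) = p1 k + t k * u1 k)
    (r0 : ∀ k, u0 (k + 1) = u0 k - 2 * (u0 k * J (k + 1) [0] + u1 k * J (k + 1) [1]) /
      (J (k + 1) [0] ^ 2 + J (k + 1) [1] ^ 2) * J (k + 1) [0])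
    (r1 : ∀ k, u1 (k + 1) = u1 k - 2 * (u0 k * J (k + 1) [0] + u1 k * J (k + 1) [1]) /
      (J (k + 1) [0] ^ 2 + J (k + 1) [1] ^ 2) * J (k + 1) [1])
    (ind : ∀ a b : ℝ, (∀ k, a * δ0 (p0 k) + b * δ1 (p0 k) = 0 ∧ a * δ0 (p1 k) + b * δ1 (p1 k) = 0 ∧
      a * δ0 (u0 k) + b * δ1 (u0 k) = 0 ∧ a * δ0 (u1 k) + b * δ1 (u1 k) = 0 ∧
      a * δ0 (t k) + b * δ1 (t k) = 0) → a = 0 ∧ b = 0) : False := by
  have := closed δ0 δ1
  have hI : ∀ T : IntermediateField (Cst δ0 δ1) ℂ, I ∈ T := fun T =>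
    T.algebraMap_mem ⟨I, cx_I δ0, cx_I δ1⟩
  have hz : ∀ k, ((u0 k : ℂ) + u1 k * I) * (u0 k - u1 k * I) = 1 := fun k => by
    have := congrArg ((↑) : ℝ → ℂ) (hu k)
    push_cast at this
    linear_combination this - (u1 k : ℂ) ^ 2 * I_sq
  have hν : ∀ k, (J k [0] : ℂ) + J k [1] * I ≠ 0 ∧ (J k [0] : ℂ) - J k [1] * I ≠ 0 := fun k => by
    constructor <;> intro h <;> apply hn k <;> have h1 := congrArg re h <;>
      have h2 := congrArg im h <;> simp at h1 h2 <;> simp [h1, h2]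
  obtain ⟨w, hw⟩ : ∃ w : Fin (n + 1) → ℂ,
      ∀ k, w k = -((J k [0] : ℂ) + J k [1] * I) / (J k [0] - J k [1] * I) := ⟨_, fun _ => rfl⟩
  have tan : ∀ δ : Derivation ℤ ℝ ℝ,
      (∀ k l, δ (J k l) = J k (0 :: l) * δ (p0 k) + J k (1 :: l) * δ (p1 k)) → ∀ k,
      cx δ (p0 k + p1 k * I) = cx δ (p0 k - p1 k * I) * w k ∧
      cx δ (p0 k) = cx δ (p0 k - p1 k * I) * ((w k + 1) / 2) ∧
      cx δ (p1 k) = cx δ (p0 k - p1 k * I) * ((w k - 1) / (2 * I)) ∧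
      ∀ l, cx δ (J k l) = cx δ (p0 k - p1 k * I) *
        (J k (0 :: l) * ((w k + 1) / 2) + J k (1 :: l) * ((w k - 1) / (2 * I))) := fun δ h k => by
    have h1 := congrArg ((↑) : ℝ → ℂ) (h k [])
    rw [hJ, map_zero] at h1
    push_cast at h1
    simp only [map_add, map_sub, Derivation.leibniz, cx_I, cx_ofReal, smul_eq_mul, mul_zero,
      zero_add]
    have a1 : (δ (p0 k) : ℂ) + I * δ (p1 k) = (δ (p0 k) - I * δ (p1 k)) * w k := by
      rw [hw, ← mul_div_assoc, eq_div_iff (hν k).2]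
      linear_combination (-2 : ℂ) * h1 - 2 * (δ (p1 k) : ℂ) * J k [1] * I_sq
    have a2 : (δ (p0 k) : ℂ) = (δ (p0 k) - I * δ (p1 k)) * ((w k + 1) / 2) := by
      linear_combination a1 / 2
    have a3 : (δ (p1 k) : ℂ) = (δ (p0 k) - I * δ (p1 k)) * ((w k - 1) / (2 * I)) := by
      rw [← mul_div_assoc, eq_div_iff (mul_ne_zero two_ne_zero I_ne_zero)]
      linear_combination a1
    refine ⟨a1, a2, a3, fun l => ?_⟩
    rw [h k l]
    push_cast
    linear_combination (J k (0 :: l) : ℂ) * a2 + (J k (1 :: l) : ℂ) * a3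
  have t0 := tan δ0 c0
  have t1 := tan δ1 c1
  let G : Fin (n + 1) → Set ℂ := fun k => {(p0 k : ℂ), (p1 k : ℂ)} ∪ range fun l => (J k l : ℂ)
  have m0 : ∀ k, (p0 k : ℂ) ∈ adjoin (Cst δ0 δ1) (G k) := fun k =>
    subset_adjoin _ _ (Or.inl (Or.inl rfl))
  have m1 : ∀ k, (p1 k : ℂ) ∈ adjoin (Cst δ0 δ1) (G k) := fun k =>
    subset_adjoin _ _ (Or.inl (Or.inr rfl))
  have mJ : ∀ k l, (J k l : ℂ) ∈ adjoin (Cst δ0 δ1) (G k) := fun k l =>
    subset_adjoin _ _ (Or.inr ⟨l, rfl⟩)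
  have mw : ∀ k, w k ∈ adjoin (Cst δ0 δ1) (G k) := fun k => by
    rw [hw]
    exact div_mem (neg_mem (add_mem (mJ _ _) (mul_mem (mJ _ _) (hI _))))
      (sub_mem (mJ _ _) (mul_mem (mJ _ _) (hI _)))
  have m2 : ∀ k, (w k + 1) / 2 ∈ adjoin (Cst δ0 δ1) (G k) := fun k =>
    div_mem (add_mem (mw k) (one_mem _)) (ofNat_mem _ 2)
  have m3 : ∀ k, (w k - 1) / (2 * I) ∈ adjoin (Cst δ0 δ1) (G k) := fun k =>
    div_mem (sub_mem (mw k) (one_mem _)) (mul_mem (ofNat_mem _ 2) (hI _))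
  have cj : ∀ a b : ℝ, (starRingEnd ℂ) (a + b * I) = a - b * I ∧
      (starRingEnd ℂ) (a - b * I) = a + b * I := fun a b => by simp [sub_eq_add_neg]
  obtain ⟨m, mx, my, me, mr⟩ := An.cfg (d := two δ0 δ1) (fun k => p0 k + p1 k * I)
    (fun k => p0 k - p1 k * I) w
    (fun k => u0 k + u1 k * I) (fun k => t k) (fun k => adjoin _ (G k))
    (fun k => add_mem (m0 k) (mul_mem (m1 k) (hI _)))
    (fun k => sub_mem (m0 k) (mul_mem (m1 k) (hI _))) mw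
    (fun k => stab_adjoin (by
      rintro _ ((rfl | rfl) | ⟨l, rfl⟩)
      · exact ⟨_, m2 k, (t0 k).2.1, (t1 k).2.1⟩
      · exact ⟨_, m3 k, (t0 k).2.2.1, (t1 k).2.2.1⟩
      · exact ⟨_, add_mem (mul_mem (mJ _ _) (m2 k)) (mul_mem (mJ _ _) (m3 k)), (t0 k).2.2.2 l,
          (t1 k).2.2.2 l⟩))
    (fun k => ⟨(t0 k).1, (t1 k).1⟩) (fun f h0 h1 => mem_bot.2 ⟨⟨f, h0, h1⟩, rfl⟩)
    (fun k => ⟨fun h => by simpa only [(cj _ _).1, (cj _ _).2] using conj_mem δ0 δ1 h,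
      fun h => by simpa only [(cj _ _).1, (cj _ _).2] using conj_mem δ0 δ1 h⟩)
    (fun k => by simp only [e0 k, e1 k]; push_cast; ring)
    (fun k => by simp only [e0 k, e1 k]; push_cast; linear_combination (t k : ℂ) * hz k)
    (fun k => left_ne_zero_of_mul_eq_one (hz k)) (fun k => ofReal_ne_zero.2 (ht k).ne')
    (fun k h => hn k (by
      rw [hw, div_eq_iff (hν k).2] at h
      have h2 := hz k
      apply ofReal_injective
      push_cast
      linear_combination (-1 / 2 : ℂ) * (u0 k - u1 k * I) * h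
        - (1 / 2 : ℂ) * (u0 k + u1 k * I) * (J k [0] - J k [1] * I) * h2
        + (u1 k : ℂ) * J k [1] * I_sq))
    (fun k => by
      have h3 : (J (k + 1) [0] : ℂ) ^ 2 + J (k + 1) [1] ^ 2 =
          (J (k + 1) [0] + J (k + 1) [1] * I) * (J (k + 1) [0] - J (k + 1) [1] * I) := by
        linear_combination (J (k + 1) [1] : ℂ) ^ 2 * I_sq
      have h4 := div_mul_cancel₀ (2 * ((u0 k : ℂ) * J (k + 1) [0] + u1 k * J (k + 1) [1]))
        (mul_ne_zero (hν (k + 1)).1 (hν (k + 1)).2)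
      simp only [r0 k, r1 k, hw]
      push_cast
      rw [h3, eq_div_iff (hν (k + 1)).2]
      linear_combination (-((u0 k : ℂ) + u1 k * I)) * h4 -
        ((J (k + 1) [0] : ℂ) + J (k + 1) [1] * I) * hz k -
        2 * ((u0 k : ℂ) + u1 k * I) * u1 k * J (k + 1) [1] * I_sq)
    (fun a b h => by
      have h1 : ∀ δ : Derivation ℤ ℝ ℝ, ∀ k, (u0 k : ℂ) * δ (u0 k) + u1 k * δ (u1 k) = 0 :=
        fun δ k => by
          have := congrArg δ (hu k)
          simp only [map_add, sq, Derivation.leibniz, smul_eq_mul, Derivation.map_one_eq_zero]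
            at this
          exact_mod_cast (by linarith : u0 k * δ (u0 k) + u1 k * δ (u1 k) = 0)
      have h2 : ∀ k, a * δ0 (p0 k) + b * δ1 (p0 k) = 0 ∧ a * δ0 (p1 k) + b * δ1 (p1 k) = 0 ∧
          a * δ0 (u0 k) + b * δ1 (u0 k) = 0 ∧ a * δ0 (u1 k) + b * δ1 (u1 k) = 0 ∧
          a * δ0 (t k) + b * δ1 (t k) = 0 := fun k => by
        obtain ⟨a1, a2, a3, a4⟩ := h k
        simp only [two, H17.toDer_apply, map_add, map_sub, Derivation.leibniz, cx_I, cx_ofReal,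
          smul_eq_mul, mul_zero, zero_add] at a1 a2 a3 a4
        have a5 : a * δ0 (u1 k) + b * δ1 (u1 k) = 0 :=
          (mul_eq_zero.1 (show ((u0 k : ℂ) + u1 k * I) * (a * δ0 (u1 k) + b * δ1 (u1 k)) = 0 by
            linear_combination (-I * u0 k) * a3 + I * a * h1 δ0 k + I * b * h1 δ1 k +
              u0 k * (a * δ0 (u1 k) + b * δ1 (u1 k)) * I_sq)).resolve_left
            (left_ne_zero_of_mul_eq_one (hz k))
        exact ⟨by linear_combination (a1 + a2) / 2,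
          mul_left_cancel₀ I_ne_zero (by linear_combination (a1 - a2) / 2),
          by linear_combination a3 - I * a5, a5, a4⟩
      have h3 : ∀ r s : ℝ, a * r + b * s = 0 → a.re * r + b.re * s = 0 ∧ a.im * r + b.im * s = 0 :=
        fun r s e => ⟨by simpa using congrArg re e, by simpa using congrArg im e⟩
      have h4 := ind a.re b.re fun k => ⟨(h3 _ _ (h2 k).1).1, (h3 _ _ (h2 k).2.1).1,
        (h3 _ _ (h2 k).2.2.1).1, (h3 _ _ (h2 k).2.2.2.1).1, (h3 _ _ (h2 k).2.2.2.2).1⟩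
      have h5 := ind a.im b.im fun k => ⟨(h3 _ _ (h2 k).1).2, (h3 _ _ (h2 k).2.1).2,
        (h3 _ _ (h2 k).2.2.1).2, (h3 _ _ (h2 k).2.2.2.1).2, (h3 _ _ (h2 k).2.2.2.2).2⟩
      exact ⟨Complex.ext h4.1 h5.1, Complex.ext h4.2 h5.2⟩)
  refine hP _ ℂ (two δ0 δ1) m _ _ {z | 0 < z.re} (fun f h0 h1 => mem_bot.2 ⟨⟨f, h0, h1⟩, rfl⟩) me mr
    ⟨fun a ha b hb => add_pos (show 0 < a.re from ha) hb, lt_irrefl (0 : ℝ)⟩ ht fun k _ => ?_
  rw [mx, my]
  exact re_conj δ0 δ1 (cj _ _).1 (cj _ _).2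

theorem an2 (n : ℕ) (hP : StmtQ Re n) : H17.Final (n + 1) := by
  intro f hf
  let S : Set ((Fin (n + 1) → EuclideanSpace ℝ (Fin 2)) × (Fin (n + 1) → EuclideanSpace ℝ (Fin 2)) ×
      (Fin (n + 1) → ℝ)) :=
    {q | ∀ k, f (q.1 k) = 0 ∧ ‖q.2.1 k‖ = 1 ∧ inner ℝ (q.2.1 k) (gradient f (q.1 k)) < 0 ∧
      0 < q.2.2 k ∧ q.1 (k + 1) = q.1 k + q.2.2 k • q.2.1 k ∧
      q.2.1 (k + 1) = q.2.1 k - (2 * inner ℝ (q.2.1 k) (gradient f (q.1 (k + 1))) /
        ‖gradient f (q.1 (k + 1))‖ ^ 2) • gradient f (q.1 (k + 1))}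
  let L : ((Fin (n + 1) → EuclideanSpace ℝ (Fin 2)) × (Fin (n + 1) → EuclideanSpace ℝ (Fin 2)) ×
      (Fin (n + 1) → ℝ)) →L[ℝ] EuclideanSpace ℝ (Fin 2) × EuclideanSpace ℝ (Fin 2) :=
    ((ContinuousLinearMap.proj 0).comp (ContinuousLinearMap.fst ℝ _ _)).prod
      ((ContinuousLinearMap.proj 0).comp ((ContinuousLinearMap.fst ℝ _ _).comp
        (ContinuousLinearMap.snd ℝ _ _)))
  refine (dimH_mono (t := L '' S) ?_).trans ((L.lipschitz.dimH_image_le S).trans ?_)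
  · rintro q ⟨p, u, h1, h2, h3, h4, h⟩
    choose t ht using fun k : Fin (n + 1) => (h k k.2).2.2.2.1
    refine ⟨⟨fun k => p k, fun k => u k, t⟩, fun k => ?_, Prod.ext h1 h2⟩
    dsimp only
    rw [per (h3.trans h1.symm), per (h4.trans h2.symm)]
    exact ⟨(h k k.2).1, (h k k.2).2.1, (h k k.2).2.2.1, (ht k).1, (ht k).2, (h k k.2).2.2.2.2⟩
  by_contra hS
  have hd : ∀ l, Differentiable ℝ (pd f l) := fun l => (pd_smooth hf l).differentiable (by simp)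
  obtain ⟨y, hy, v0, v1, hv, δ0, δ1, h⟩ :=
    gen2 (ι := Fin (n + 1) × (List (Fin 2) ⊕ Fin 2 ⊕ Fin 2 ⊕ Unit))
      (fun i q => Sum.elim (fun l => pd f l (q.1 i.1)) (Sum.elim (fun j => q.1 i.1 j)
        (Sum.elim (fun j => q.2.1 i.1 j) fun _ => q.2.2 i.1)) i.2) (by
      rintro ⟨k, l | j | j | j⟩ <;> simp only [Sum.elim_inl, Sum.elim_inr]
      · exact (hd l).comp (by fun_prop)
      all_goals fun_prop) hS
  have lin : ∀ (A : _ →L[ℝ] ℝ) (v), fderiv ℝ (fun q => A q) y v = A v := fun A v => by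
    rw [A.fderiv]
  let P := fun k : Fin (n + 1) => (ContinuousLinearMap.proj k).comp (ContinuousLinearMap.fst ℝ
    (Fin (n + 1) → EuclideanSpace ℝ (Fin 2)) ((Fin (n + 1) → EuclideanSpace ℝ (Fin 2)) ×
      (Fin (n + 1) → ℝ)))
  have hp : ∀ k j, δ0 (y.1 k j) = v0.1 k j ∧ δ1 (y.1 k j) = v1.1 k j := fun k j =>
    ⟨(h (k, .inr (.inl j))).1.trans (lin ((EuclideanSpace.proj j).comp (P k)) _),
      (h (k, .inr (.inl j))).2.trans (lin ((EuclideanSpace.proj j).comp (P k)) _)⟩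
  have hu : ∀ k j, δ0 (y.2.1 k j) = v0.2.1 k j ∧ δ1 (y.2.1 k j) = v1.2.1 k j := fun k j => by
    have := lin ((EuclideanSpace.proj j).comp ((ContinuousLinearMap.proj k).comp
      ((ContinuousLinearMap.fst ℝ _ _).comp (ContinuousLinearMap.snd ℝ _ _))))
    exact ⟨(h (k, .inr (.inr (.inl j)))).1.trans (this _),
      (h (k, .inr (.inr (.inl j)))).2.trans (this _)⟩
  have ht : ∀ k, δ0 (y.2.2 k) = v0.2.2 k ∧ δ1 (y.2.2 k) = v1.2.2 k := fun k => by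
    have := lin ((ContinuousLinearMap.proj k).comp
      ((ContinuousLinearMap.snd ℝ _ _).comp (ContinuousLinearMap.snd ℝ _ _)))
    exact ⟨(h (k, .inr (.inr (.inr ())))).1.trans (this _),
      (h (k, .inr (.inr (.inr ())))).2.trans (this _)⟩
  have hc : ∀ k l v, fderiv ℝ (fun q => pd f l (P k q)) y v =
      pd f (0 :: l) (y.1 k) * v.1 k 0 + pd f (1 :: l) (y.1 k) * v.1 k 1 := fun k l v =>
    (DFunLike.congr_fun ((hd l _).hasFDerivAt.comp y (P k).hasFDerivAt).fderiv v).trans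
      (fderiv_pd l _ _)
  have hi : ∀ a b : EuclideanSpace ℝ (Fin 2),
      inner ℝ a (gradient f b) = a 0 * pd f [0] b + a 1 * pd f [1] b := fun a b => by
    rw [PiLp.inner_apply, Fin.sum_univ_two, grad, grad]
    simp [mul_comm]
  have hn : ∀ a : EuclideanSpace ℝ (Fin 2), ‖a‖ ^ 2 = a 0 ^ 2 + a 1 ^ 2 := fun a => by
    simp [EuclideanSpace.norm_sq_eq]
  refine H9.rcfg δ0 δ1 hP (fun k => y.1 k 0) (fun k => y.1 k 1) (fun k => y.2.1 k 0)
    (fun k => y.2.1 k 1) y.2.2 (fun k l => pd f l (y.1 k))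
    (fun k l => by rw [(hp k 0).1, (hp k 1).1]; exact (h (k, .inl l)).1.trans (hc k l _))
    (fun k l => by rw [(hp k 0).2, (hp k 1).2]; exact (h (k, .inl l)).2.trans (hc k l _))
    (fun k => (hy k).1) (fun k => by rw [← hn, (hy k).2.1, one_pow])
    (fun k => by rw [← hi]; exact (hy k).2.2.1.ne) (fun k => (hy k).2.2.2.1)
    (fun k => by rw [(hy k).2.2.2.2.1]; rfl) (fun k => by rw [(hy k).2.2.2.2.1]; rfl)
    (fun k => by rw [(hy k).2.2.2.2.2, hi, hn, ← grad, ← grad]; rfl)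
    (fun k => by rw [(hy k).2.2.2.2.2, hi, hn, ← grad, ← grad]; rfl)
    fun a b e => hv a b ?_
  simp only [(hp _ _).1, (hp _ _).2, (hu _ _).1, (hu _ _).2, (ht _).1, (ht _).2] at e
  refine Prod.ext (funext fun k => ?_) (Prod.ext (funext fun k => ?_) (funext fun k => ?_))
  · ext j; fin_cases j
    · exact (e k).1
    · exact (e k).2.1
  · ext j; fin_cases j
    · exact (e k).2.2.1
    · exact (e k).2.2.2.1
  · exact (e k).2.2.2.2
/-- The planar conjecture follows from the case of algebraic mirrors. -/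
theorem full (hA : StmtA Re) (n : ℕ) : H17.Final (n + 1) := an2 n (H72.reduce Re re_ok hA n)

theorem full_sy (hA : StmtA Sy) (n : ℕ) : H17.Final (n + 1) := full (stmtA_re hA) n

end Pool.Agent.MP_249f74_an.H9
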