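import Pool.Agent.MP_249f74_an.H96.Spec

/-!
A property of real algebraic curves in isotropic coordinates: the two coordinates play symmetric
roles in the Newton diagram.
-/

open Set IntermediateField

namespace Pool.Agent.MP_249f74_an.H9

open H96
open H17 (Der ld stab_cl mem_bot_of_cl map_mem_cl)
open H88 (cl subset_cl)

variable {C Ω : Type} [Field C] [Field Ω] [Algebra C Ω]

variable (C) in
/-- The span of the monomials with exponents in `s`. -/
def Sp (x y : Ω) (s : Set (ℕ × ℕ)) : Submodule C Ω :=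
  Submodule.span C ((fun a : ℕ × ℕ => x ^ a.1 * y ^ a.2) '' s)

/-- The linear relations between monomials that are invariant under translations do not change
when the coordinates are exchanged. -/
def Re : Prp := fun C _ _ _ _ x y => ∀ s : Set (ℕ × ℕ), IsLowerSet s → ∀ m : ℕ × ℕ, Iio m ⊆ s →
  (x ^ m.1 * y ^ m.2 ∈ Sp C x y s ↔ y ^ m.1 * x ^ m.2 ∈ Sp C y x s)

variable {x y : Ω} {s : Set (ℕ × ℕ)} {m : ℕ × ℕ}

lemma mem_Sp (h : m ∈ s) : x ^ m.1 * y ^ m.2 ∈ Sp C x y s := Submodule.subset_span ⟨m, h, rfl⟩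

lemma Sp_mono {t : Set (ℕ × ℕ)} (h : s ⊆ t) : Sp C x y s ≤ Sp C x y t :=
  Submodule.span_mono (image_mono h)

lemma expand (α a β b : C) (m : ℕ × ℕ) :
    (algebraMap C Ω α * x + algebraMap C Ω a) ^ m.1 * (algebraMap C Ω β * y + algebraMap C Ω b) ^ m.2 -
      (α ^ m.1 * β ^ m.2) • (x ^ m.1 * y ^ m.2) ∈ Sp C x y (Iio m) := by
  classical
  have h : (algebraMap C Ω α * x + algebraMap C Ω a) ^ m.1 *
      (algebraMap C Ω β * y + algebraMap C Ω b) ^ m.2 =
      ∑ k ∈ Finset.range (m.1 + 1) ×ˢ Finset.range (m.2 + 1),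
        (α ^ k.1 * a ^ (m.1 - k.1) * m.1.choose k.1 * (β ^ k.2 * b ^ (m.2 - k.2) * m.2.choose k.2)) •
          (x ^ k.1 * y ^ k.2) := by
    rw [add_pow, add_pow, Finset.sum_mul_sum, Finset.sum_product]
    refine Finset.sum_congr rfl fun i _ => Finset.sum_congr rfl fun j _ => ?_
    simp only [Algebra.smul_def, map_mul, map_pow, map_natCast]
    ring
  rw [h, ← Finset.add_sum_erase _ _ (show m ∈ _ by simp)]
  simp only [Nat.sub_self, pow_zero, mul_one, Nat.choose_self, Nat.cast_one, add_sub_cancel_left]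
  refine Submodule.sum_mem _ fun k hk => Submodule.smul_mem _ _ (mem_Sp ?_)
  simp only [Finset.mem_erase, Finset.mem_product, Finset.mem_range] at hk
  exact lt_of_le_of_ne (Prod.le_def.2 ⟨by omega, by omega⟩) hk.1

lemma Sp_aff (hs : IsLowerSet s) (α a β b : C) :
    Sp C (algebraMap C Ω α * x + algebraMap C Ω a) (algebraMap C Ω β * y + algebraMap C Ω b) s ≤
      Sp C x y s := by
  refine Submodule.span_le.2 ?_
  rintro _ ⟨k, hk, rfl⟩
  simpa using add_mem (Sp_mono (hs.Iio_subset hk) (expand (x := x) (y := y) α a β b k))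
    (Submodule.smul_mem _ (α ^ k.1 * β ^ k.2) (mem_Sp hk))

lemma aff (hs : IsLowerSet s) (hm : Iio m ⊆ s) {α β : C} (hα : α ≠ 0) (hβ : β ≠ 0) (a b : C) :
    (algebraMap C Ω α * x + algebraMap C Ω a) ^ m.1 *
      (algebraMap C Ω β * y + algebraMap C Ω b) ^ m.2 ∈
      Sp C (algebraMap C Ω α * x + algebraMap C Ω a) (algebraMap C Ω β * y + algebraMap C Ω b) s ↔
      x ^ m.1 * y ^ m.2 ∈ Sp C x y s := by
  have e : Sp C (algebraMap C Ω α * x + algebraMap C Ω a)
      (algebraMap C Ω β * y + algebraMap C Ω b) s = Sp C x y s := by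
    refine (Sp_aff hs α a β b).antisymm ?_
    have := Sp_aff (x := algebraMap C Ω α * x + algebraMap C Ω a)
      (y := algebraMap C Ω β * y + algebraMap C Ω b) hs α⁻¹ (-(α⁻¹ * a)) β⁻¹ (-(β⁻¹ * b))
    have h1 := (_root_.map_ne_zero (algebraMap C Ω)).2 hα
    have h2 := (_root_.map_ne_zero (algebraMap C Ω)).2 hβ
    rwa [map_neg, map_mul, map_neg, map_mul, mul_add, mul_add, map_inv₀, map_inv₀,
      inv_mul_cancel_left₀ h1, inv_mul_cancel_left₀ h2, add_neg_cancel_right,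
      add_neg_cancel_right] at this
  rw [e, ← Submodule.smul_mem_iff _ (x := x ^ m.1 * y ^ m.2)
    (mul_ne_zero (pow_ne_zero m.1 hα) (pow_ne_zero m.2 hβ))]
  have := Sp_mono hm (expand (x := x) (y := y) α a β b m)
  exact ⟨fun h => by simpa using sub_mem h this, fun h => by simpa using add_mem this h⟩

lemma Re.symm (h : Re C Ω x y) : Re C Ω y x := fun s hs m hm => (h s hs m hm).symm

lemma map_iff {Ω' : Type} [Field Ω'] [Algebra C Ω'] (i : Ω →ₐ[C] Ω') :
    i x ^ m.1 * i y ^ m.2 ∈ Sp C (i x) (i y) s ↔ x ^ m.1 * y ^ m.2 ∈ Sp C x y s := by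
  have e : Sp C (i x) (i y) s = (Sp C x y s).map i.toLinearMap := by
    simp [Sp, Submodule.map_span, image_image]
  rw [e, ← map_pow, ← map_pow, ← map_mul]
  exact ⟨fun ⟨u, h1, h2⟩ => i.toRingHom.injective h2 ▸ h1, fun h => ⟨_, h, rfl⟩⟩

/-- Linear relations between algebraic functions of one variable descend to an algebraically
closed field of constants. -/
lemma descend {C' : Type} [IsAlgClosed C] [CharZero Ω] [Field C'] [Algebra C' Ω] [Algebra C C']
    [IsScalarTower C C' Ω] {t u : Ω} (ht : t ∉ cl C' (∅ : Set Ω)) {S : Set Ω}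
    (hS : S ⊆ cl C {t}) (hu : u ∈ cl C {t}) :
    u ∈ Submodule.span C' S ↔ u ∈ Submodule.span C S := by
  refine ⟨fun h => ?_, fun h => Submodule.span_le_restrictScalars C C' S h⟩
  by_contra hn
  obtain ⟨θ, -, hθ⟩ := sep ht
  let δ : Der C Ω := θ.restrictScalars C
  have h1 : δ t = 1 := hθ
  have h2 := ld (δ := δ) (F := cl C {t}) (E := (IsScalarTower.toAlgHom C C' Ω).fieldRange)
    (fun f hf => stab_cl (by rintro _ rfl; rw [h1]; exact one_mem _) hf)
    (fun f hf h0 => mem_bot_of_cl (mem_cl_of_der (S := ∅) (t := t) (δ := δ) (by simpa using hf)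
      (by simp [Kil]) h0 (by rw [h1]; exact one_ne_zero)))
    (by rintro _ ⟨c, rfl⟩; exact θ.map_algebraMap c)
  obtain ⟨B, b1, b2, b3⟩ := exists_linearIndependent C S
  have h3 : LinearIndepOn C id (insert u B) := LinearIndepOn.id_insert b3 (b2 ▸ hn)
  have h4 : ∀ a : ↥(insert u B), (a : Ω) ∈ cl C {t} := by
    rintro ⟨a, rfl | ha⟩
    exacts [hu, hS (b1 ha)]
  have h5 := h2.linearIndependent_right_of_flat
    (b := fun a : ↥(insert u B) => (⟨a, h4 a⟩ : (cl C {t}).toSubalgebra))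
    (LinearIndependent.of_comp (cl C {t}).toSubalgebra.val.toLinearMap h3)
  have h6 : LinearIndepOn C' id (insert u B) :=
    h5.map_of_injective_injective (j := AddMonoidHom.id Ω)
      (IsScalarTower.toAlgHom C C' Ω).equivFieldRange (fun r hr => by simpa using hr)
      (fun _ h => h) fun r a => (Algebra.smul_def r a).symm ▸ rfl
  have h7 : u ∉ B := fun e => hn (Submodule.subset_span (b1 e))
  refine ((linearIndepOn_id_insert h7).1 h6).2 (Submodule.span_le.2 (fun a ha => ?_) h)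
  exact Submodule.span_le_restrictScalars C C' B (b2 ▸ Submodule.subset_span ha)

theorem re_ok : Re.Ok where
  iso C Ω _ _ _ g x y h s hs m hm := by
    have h1 := g.hβ
    have h2 := inv_ne_zero h1
    unfold Iso.px Iso.py
    rw [← map_inv₀, aff hs hm h1 h2, aff hs hm h2 h1]
    cases g.e
    exacts [h s hs m hm, (h s hs m hm).symm]
  ext C Ω C' Ω' _ _ _ _ _ _ _ _ _ _ _ i x y hx hy h s hs m hm := by
    have : CharZero Ω' := (RingHom.charZero_iff i.toRingHom.injective).1 inferInstance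
    have h1 : i x ∈ cl C {i y} := by simpa using map_mem_cl i hx
    have h2 : i y ∈ cl C {i y} := subset_cl _ rfl
    have h3 := (map_iff i).trans ((h s hs m hm).trans (map_iff i).symm)
    unfold Sp at h3 ⊢
    rw [descend (C := C) hy _ (mul_mem (pow_mem h1 _) (pow_mem h2 _)),
      descend (C := C) hy _ (mul_mem (pow_mem h2 _) (pow_mem h1 _)), h3]
    · rintro _ ⟨a, -, rfl⟩
      exact mul_mem (pow_mem h2 _) (pow_mem h1 _)
    · rintro _ ⟨a, -, rfl⟩
      exact mul_mem (pow_mem h1 _) (pow_mem h2 _)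
  res C Ω Ω' _ _ _ _ _ i x y h s hs m hm :=
    (map_iff i).symm.trans ((h s hs m hm).trans (map_iff i))

lemma nc1_iff : NC1 C x y ↔
    ∃ N : ℕ, x ^ (0, N).1 * y ^ (0, N).2 ∈ Sp C x y {a | a.1 + a.2 ≤ N ∧ a.2 < N} := by
  refine exists_congr fun N => ?_
  rw [pow_zero, one_mul, Sp]
  congr! 2
  ext f
  exact ⟨fun ⟨i, j, h1, h2, h3⟩ => ⟨(i, j), ⟨h1, h2⟩, h3.symm⟩,
    fun ⟨a, ⟨h1, h2⟩, h3⟩ => ⟨a.1, a.2, h1, h2, h3.symm⟩⟩

lemma low (N : ℕ) : IsLowerSet {a : ℕ × ℕ | a.1 + a.2 ≤ N ∧ a.2 < N} := fun a b hab ha => by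
  obtain ⟨h1, h2⟩ := hab
  obtain ⟨h3, h4⟩ := ha
  exact ⟨by omega, by omega⟩

lemma low' (N : ℕ) : Iio (0, N) ⊆ {a : ℕ × ℕ | a.1 + a.2 ≤ N ∧ a.2 < N} := fun a ha => by
  rcases Prod.lt_iff.1 (mem_Iio.1 ha) with ⟨h1, h2⟩ | ⟨h1, h2⟩ <;> simp only at h1 h2
  · omega
  · exact ⟨by omega, by omega⟩

/-- The curve passes through both circular points or through none. -/
def Sy : Prp := fun C _ _ _ _ x y => NC1 C x y ↔ NC1 C y x

theorem Re.nc1 (h : Re C Ω x y) : NC1 C x y ↔ NC1 C y x := by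
  rw [nc1_iff, nc1_iff]
  exact exists_congr fun N => h _ (low N) _ (low' N)

lemma nc1_aff {α β : C} (hα : α ≠ 0) (hβ : β ≠ 0) (a b : C) :
    NC1 C (algebraMap C Ω α * x + algebraMap C Ω a) (algebraMap C Ω β * y + algebraMap C Ω b) ↔
      NC1 C x y := by
  rw [nc1_iff, nc1_iff]
  exact exists_congr fun N => aff (low N) (low' N) hα hβ a b

lemma nc1_map {Ω' : Type} [Field Ω'] [Algebra C Ω'] (i : Ω →ₐ[C] Ω') :
    NC1 C (i x) (i y) ↔ NC1 C x y := by
  rw [nc1_iff, nc1_iff]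
  exact exists_congr fun N => map_iff i

lemma nc1_desc {C' : Type} [IsAlgClosed C] [CharZero Ω] [Field C'] [Algebra C' Ω] [Algebra C C']
    [IsScalarTower C C' Ω] {t : Ω} (ht : t ∉ cl C' (∅ : Set Ω)) (hx : x ∈ cl C {t})
    (hy : y ∈ cl C {t}) : NC1 C' x y ↔ NC1 C x y :=
  exists_congr fun N => descend ht (by
    rintro _ ⟨i, j, -, -, rfl⟩
    exact mul_mem (pow_mem hx _) (pow_mem hy _)) (pow_mem hy _)

theorem sy_ok : Sy.Ok where
  iso C Ω _ _ _ g x y h := by
    have h1 := g.hβ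
    have h2 := inv_ne_zero h1
    unfold Iso.px Iso.py Sy
    rw [← map_inv₀, nc1_aff h1 h2, nc1_aff h2 h1]
    cases g.e
    exacts [h, Iff.symm h]
  ext C Ω C' Ω' _ _ _ _ _ _ _ _ _ _ _ i x y hx hy h := by
    have : CharZero Ω' := (RingHom.charZero_iff i.toRingHom.injective).1 inferInstance
    have h1 : i x ∈ cl C {i y} := by simpa using map_mem_cl i hx
    have h2 : i y ∈ cl C {i y} := subset_cl _ rfl
    unfold Sy
    rw [nc1_desc (C := C) hy h1 h2, nc1_desc (C := C) hy h2 h1, nc1_map, nc1_map]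
    exact h
  res C Ω Ω' _ _ _ _ _ i x y h := (nc1_map i).symm.trans (Iff.trans h (nc1_map i))

theorem stmtA_re (h : StmtA Sy) : StmtA Re := fun C Ω _ _ _ _ _ _ d g m z l n P hd ht ha =>
  h C Ω d g m z l n P hd ht ⟨ha.pos, ha.hl, fun i hi hm => (ha.hp i hi hm).nc1⟩

end Pool.Agent.MP_249f74_an.H9
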